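import Mathlib

set_option autoImplicit false

namespace Pool.Agent.MP_4a5f01_pr

open MeasureTheory

/-- The unit sphere `S^d` of the Euclidean space `ℝ^(d+1)`. -/
abbrev Sph (d : ℕ) : Type := Metric.sphere (0 : EuclideanSpace ℝ (Fin (d + 1))) 1

/-- The normalised surface measure (`d`-dimensional Hausdorff measure) on `S^d`. -/
noncomputable def unif (d : ℕ) : Measure (Sph d) :=
  (Measure.hausdorffMeasure (d : ℝ) (Set.univ : Set (Sph d)))⁻¹ • Measure.hausdorffMeasure (d : ℝ)

/-- The Borsuk graph on the points `X i`: distinct `i`, `j` are adjacent iff the geodesic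
distance (angle) between `X i` and `X j` exceeds `π - α`. -/
def borsuk {d n : ℕ} (α : ℝ) (X : Fin n → Sph d) : SimpleGraph (Fin n) where
  Adj i j := i ≠ j ∧ Real.pi - α < InnerProductGeometry.angle (X i).val (X j).val
  symm := ⟨fun _ _ h => ⟨h.1.symm, by rw [InnerProductGeometry.angle_comm]; exact h.2⟩⟩
  loopless := ⟨fun _ h => h.1 rfl⟩

/-- The probability that the random Borsuk graph `G_d(n, α)` on `n` independent uniform points
has chromatic number greater than `d + 1`. -/
noncomputable def prob (d n : ℕ) (α : ℝ) : ℝ :=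
  (Measure.pi (fun _ : Fin n => unif d)).real
    {X | ((d + 1 : ℕ) : ℕ∞) < (borsuk α X).chromaticNumber}

end Pool.Agent.MP_4a5f01_pr
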